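import Mathlib
import Pool.Agent.H255Z.Quad.Hyp

open NumberField IntermediateField

namespace Pool.Agent.Results.MP_9b9442_nt.AHyperellipticExceptions

/-- Points `(x, y)`, `x` rational of height at most `X`, `y ≠ 0`, on the hyperelliptic curve
`y ^ 2 = c * ∏ (t x - s)` branched at the `2 g + 2` rational points `[s : t] = α i`, such that the
logarithmic discriminant `d` of `ℚ(y)` satisfies `d + C < (g + 1 - κ) * h(x)`. -/
def Exceptional (g : ℕ) (c : ℤ) (α : Fin (2 * g + 2) → ℤ × ℤ) (κ C : ℝ) (X : ℕ) : Set (ℚ × ℂ) :=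
  {P | P.2 ≠ 0 ∧ P.2 ^ 2 = c * ∏ i, ((α i).2 * (P.1 : ℂ) - (α i).1) ∧
    Height.mulHeight₁ P.1 ≤ X ∧ ∃ _ : NumberField ℚ⟮P.2⟯,
      Real.log |(discr ℚ⟮P.2⟯ : ℝ)| / Module.finrank ℚ ℚ⟮P.2⟯ + C <
        (g + 1 - κ) * Height.logHeight₁ P.1}

theorem result (g : ℕ) (c : ℤ) (α : Fin (2 * g + 2) → ℤ × ℤ)
    (hcop : ∀ l, IsCoprime (α l).1 (α l).2)
    (hne : ∀ i j, i ≠ j → (α i).1 * (α j).2 - (α i).2 * (α j).1 ≠ 0)
    (κ C η : ℝ) (hη : 0 < η) : ∃ D : ℝ, ∀ X : ℕ, (Exceptional g c α κ C X).Finite ∧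
      ((Exceptional g c α κ C X).ncard : ℝ) ≤ D * (X : ℝ) ^ (max (2 - κ) (6 / 5) + η) := by
  obtain ⟨D, hD⟩ := Pool.Agent.H255Z.Quad.mainH g c α hcop hne κ C η hη
  refine ⟨D, fun X => ?_⟩
  have hf : (Exceptional g c α κ C X).Finite := by
    by_contra hinf
    obtain ⟨T, h1, h2⟩ := Set.Infinite.exists_subset_card_eq hinf
      (⌊D * (X : ℝ) ^ (max (2 - κ) (6 / 5) + η)⌋₊ + 1)
    have := hD X T fun P hP => h1 hP
    rw [h2] at this
    push_cast at this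
    linarith [Nat.lt_floor_add_one (D * (X : ℝ) ^ (max (2 - κ) (6 / 5) + η))]
  refine ⟨hf, ?_⟩
  rw [Set.ncard_eq_toFinset_card _ hf]
  exact hD X _ fun P hP => hf.mem_toFinset.1 hP

end Pool.Agent.Results.MP_9b9442_nt.AHyperellipticExceptions
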